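import Mathlib
import Pool.Agent.H80Z.OpenMul

namespace Pool.Agent.Results.MP_9cb16a_an.NotOpen

/-- There is a commutative unital complex Banach algebra whose maximal ideal space (the nonzero
multiplicative functionals with the weak-star topology) has a base of clopen sets and whose
idempotents span a dense subspace, but whose multiplication is neither open nor uniformly open. -/
theorem result :
    ∃ (A : Type) (_ : NormedCommRing A) (_ : NormedAlgebra ℂ A),
      CompleteSpace A ∧ ‖(1 : A)‖ = 1 ∧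
      TopologicalSpace.IsTopologicalBasis
        {s : Set (WeakDual.characterSpace ℂ A) | IsClopen s} ∧
      Dense ((Submodule.span ℂ {e : A | e * e = e} : Submodule ℂ A) : Set A) ∧
      ¬ IsOpenMap (fun p : A × A => p.1 * p.2) ∧
      ¬ (∀ ε : ℝ, 0 < ε → ∃ δ : ℝ, 0 < δ ∧ ∀ a b : A, ‖a‖ ≤ 1 → ‖b‖ ≤ 1 →
          ∀ w ∈ Metric.ball (a * b) δ,
            ∃ u ∈ Metric.ball a ε, ∃ v ∈ Metric.ball b ε, u * v = w) :=
  ⟨Pool.Agent.H80Z.OpenMul.A, inferInstance, inferInstance, inferInstance, norm_one,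
    Pool.Agent.H80Z.OpenMul.zero_dim Pool.Agent.H80Z.OpenMul.dense_idem,
    Pool.Agent.H80Z.OpenMul.dense_idem, Pool.Agent.H80Z.OpenMul.not_open,
    Pool.Agent.H80Z.OpenMul.not_unif⟩

end Pool.Agent.Results.MP_9cb16a_an.NotOpen
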